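import Mathlib

/-!
A connected graph of order 8 whose outer-connected domination number equals that of its
middle graph.
-/

namespace Pool.Agent.Results.MP_43f51c_co.MiddleEquality

/-- `D` is an outer-connected dominating set of `H`: every vertex outside `D` has a neighbour in
`D`, and the graph induced on the complement of `D` is connected (or empty). -/
def IsOCD {V : Type} (H : SimpleGraph V) (D : Set V) : Prop :=
  (∀ v, v ∉ D → ∃ w ∈ D, H.Adj v w) ∧ (H.induce Dᶜ).Preconnected

/-- The outer-connected domination number. -/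
noncomputable def ocd {V : Type} (H : SimpleGraph V) : ℕ :=
  sInf {k : ℕ | ∃ D : Set V, IsOCD H D ∧ D.ncard = k}

/-- The middle graph of `G`. -/
def middle {V : Type} (G : SimpleGraph V) : SimpleGraph (V ⊕ G.edgeSet) where
  Adj
    | Sum.inl _, Sum.inl _ => False
    | Sum.inl v, Sum.inr e => v ∈ e.1
    | Sum.inr e, Sum.inl v => v ∈ e.1
    | Sum.inr e, Sum.inr f => e ≠ f ∧ ∃ v, v ∈ e.1 ∧ v ∈ f.1
  symm := ⟨by
    rintro (v | e) (w | f) h
    · exact h
    · exact h
    · exact h
    · exact ⟨h.1.symm, h.2.imp fun v hv => ⟨hv.2, hv.1⟩⟩⟩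
  loopless := ⟨by
    rintro (v | e) h
    · exact h
    · exact h.1 rfl⟩

/-- Adjacency table. -/
def adjB (i j : Fin 8) : Bool :=
  ([0x50, 0xa0, 0xc0, 0xc0, 0x41, 0x82, 0x9d, 0x6e].getD i.val 0).testBit j.val

/-- The graph: an edge `67`, its two common neighbours `2, 3`, and the triangles `046`, `157`. -/
def G : SimpleGraph (Fin 8) where
  Adj i j := adjB i j = true
  symm := ⟨by decide⟩
  loopless := ⟨by decide⟩

instance : DecidableRel G.Adj := fun i j => inferInstanceAs (Decidable (adjB i j = true))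

theorem adj_partner (v : Fin 8) : G.Adj v (v + 4) := by
  revert v; decide

/-- The edge joining `v` to its partner `v + 4`. -/
def pe (v : Fin 8) : G.edgeSet := ⟨s(v, v + 4), adj_partner v⟩

/-- Another neighbour of `v`. -/
def other : Fin 8 → Fin 8 := ![6, 7, 7, 6, 6, 7, 7, 6]

theorem adj_other (v : Fin 8) : G.Adj v (other v) := by
  revert v; decide

/-- A second edge at `v`. -/
def oe (v : Fin 8) : G.edgeSet := ⟨s(v, other v), adj_other v⟩

/-- The four matching edges, as vertices of the middle graph. -/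
def D0 : Set (Fin 8 ⊕ G.edgeSet) := {x | ∃ v, x = Sum.inr (pe v)}

theorem D0_card : D0.ncard ≤ 4 := by
  have h : D0 ⊆ (fun v : Fin 8 => (Sum.inr (pe v) : Fin 8 ⊕ G.edgeSet)) ''
      (({0, 1, 2, 3} : Finset (Fin 8)) : Set (Fin 8)) := by
    rintro x ⟨v, rfl⟩
    have hv : v ∈ ({0, 1, 2, 3} : Finset (Fin 8)) ∨ v + 4 ∈ ({0, 1, 2, 3} : Finset (Fin 8)) := by
      revert v; decide
    rcases hv with hv | hv
    · exact ⟨v, hv, rfl⟩
    · refine ⟨v + 4, hv, ?_⟩
      have h4 : v + 4 + 4 = v := by revert v; decide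
      have : pe (v + 4) = pe v := by
        apply Subtype.ext
        change s(v + 4, v + 4 + 4) = s(v, v + 4)
        rw [h4, Sym2.eq_swap]
      simp only [this]
  refine (Set.ncard_le_ncard h (Set.toFinite _)).trans ?_
  refine (Set.ncard_image_le (Set.toFinite _)).trans ?_
  rw [Set.ncard_coe_finset]
  decide

/-- The root of the complement. -/
def root : Fin 8 ⊕ G.edgeSet := Sum.inr (oe 6)

theorem reach_of_closed {V : Type} {H : SimpleGraph V} {D : Set V} (r : V) (hr : r ∉ D)
    (h : ∀ x, x ∉ D → x = r ∨ H.Adj x r ∨ ∃ y, y ∉ D ∧ H.Adj x y ∧ (y = r ∨ H.Adj y r)) :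
    (H.induce Dᶜ).Preconnected := by
  have key : ∀ x (hx : x ∉ D), (H.induce Dᶜ).Reachable ⟨x, hx⟩ ⟨r, hr⟩ := by
    have adj : ∀ x (hx : x ∉ D), H.Adj x r → (H.induce Dᶜ).Reachable ⟨x, hx⟩ ⟨r, hr⟩ :=
      fun x hx ha => SimpleGraph.Adj.reachable ha
    intro x hx
    rcases h x hx with h1 | h1 | ⟨y, hy, h1, h2⟩
    · subst h1
      exact SimpleGraph.Reachable.refl _
    · exact adj x hx h1
    · have h3 : (H.induce Dᶜ).Reachable ⟨x, hx⟩ ⟨y, hy⟩ :=
        SimpleGraph.Adj.reachable h1
      rcases h2 with h2 | h2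
      · subst h2
        exact h3
      · exact h3.trans (adj y hy h2)
  intro x y
  exact (key x.1 x.2).trans (key y.1 y.2).symm

theorem mid_isOCD : IsOCD (middle G) D0 := by
  have hdom : ∀ v : Fin 8, ∀ f : G.edgeSet, v ∈ f.1 → Sum.inr f ∉ D0 →
      ∃ w ∈ D0, (middle G).Adj (Sum.inr f) w := by
    intro v f hv hf
    refine ⟨Sum.inr (pe v), ⟨v, rfl⟩, ?_, v, hv, Sym2.mem_mk_left _ _⟩
    intro h
    exact hf ⟨v, by rw [h]⟩
  constructor
  · rintro (v | f) hx
    · exact ⟨Sum.inr (pe v), ⟨v, rfl⟩, Sym2.mem_mk_left _ _⟩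
    · obtain ⟨e, he⟩ := f
      induction e with | h a b => ?_
      exact hdom a _ (Sym2.mem_mk_left _ _) hx
  · have hroot : ∀ v, Sum.inr (oe v) ∉ D0 := by
      rintro v ⟨w, hw⟩
      have h1 : s(v, other v) = s(w, w + 4) := congrArg Subtype.val (Sum.inr_injective hw)
      revert h1
      revert v w
      decide
    have hadj : ∀ f : G.edgeSet, (6 : Fin 8) ∈ f.1 ∨ (7 : Fin 8) ∈ f.1 →
        Sum.inr f = root ∨ (middle G).Adj (Sum.inr f) root := by
      intro f hf
      by_cases h : f = oe 6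
      · exact Or.inl (by rw [h]; rfl)
      · refine Or.inr ⟨h, ?_⟩
        rcases hf with hf | hf
        · exact ⟨6, hf, Sym2.mem_mk_left _ _⟩
        · exact ⟨7, hf, Sym2.mem_mk_right _ _⟩
    apply reach_of_closed root (hroot 6)
    rintro (v | f) hx
    · refine Or.inr (Or.inr ⟨Sum.inr (oe v), hroot v, Sym2.mem_mk_left _ _, hadj _ ?_⟩)
      have h67 : ∀ v : Fin 8, other v = 6 ∨ other v = 7 := by decide
      rcases h67 v with h | h
      · left
        change (6 : Fin 8) ∈ s(v, other v)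
        rw [h]
        exact Sym2.mem_mk_right _ _
      · right
        change (7 : Fin 8) ∈ s(v, other v)
        rw [h]
        exact Sym2.mem_mk_right _ _
    · have h67 : (6 : Fin 8) ∈ f.1 ∨ (7 : Fin 8) ∈ f.1 := by
        obtain ⟨e, he⟩ := f
        induction e with | h a b => ?_
        have hab : G.Adj a b := he
        have hnp : b ≠ a + 4 := by
          rintro rfl
          exact hx ⟨a, rfl⟩
        have : ∀ a b : Fin 8, G.Adj a b → b ≠ a + 4 → (a = 6 ∨ b = 6) ∨ (a = 7 ∨ b = 7) := by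
          decide
        rcases this a b hab hnp with (h | h) | (h | h)
        · left
          change (6 : Fin 8) ∈ s(a, b)
          rw [h]
          exact Sym2.mem_mk_left _ _
        · left
          change (6 : Fin 8) ∈ s(a, b)
          rw [h]
          exact Sym2.mem_mk_right _ _
        · right
          change (7 : Fin 8) ∈ s(a, b)
          rw [h]
          exact Sym2.mem_mk_left _ _
        · right
          change (7 : Fin 8) ∈ s(a, b)
          rw [h]
          exact Sym2.mem_mk_right _ _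
      rcases hadj f h67 with h | h
      · exact Or.inl h
      · exact Or.inr (Or.inl h)

theorem closed_all {V : Type} {H : SimpleGraph V} (hH : H.Preconnected) (P : V → Prop)
    (hP : ∀ x y, H.Adj x y → P x → P y) (a b : V) (ha : P a) : P b := by
  obtain ⟨p⟩ := hH a b
  induction p with
  | nil => exact ha
  | cons h _ ih => exact ih (hP _ _ h ha)

/-- Necessary conditions for an outer-connected dominating set. -/
def Good (D : Finset (Fin 8)) : Prop := (∀ v, v ∉ D → ∃ w ∈ D, G.Adj v w) ∧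
    (6 ∈ D → (0 ∈ D ∧ 4 ∈ D) ∨ (∀ x, x ∉ D → x = 0 ∨ x = 4)) ∧
    (7 ∈ D → (1 ∈ D ∧ 5 ∈ D) ∨ (∀ x, x ∉ D → x = 1 ∨ x = 5))

instance : DecidablePred Good := fun D => by unfold Good; infer_instance

theorem finite_check : ∀ D : Finset (Fin 8), Good D → 4 ≤ D.card := by
  decide +kernel

theorem four_le (D : Set (Fin 8)) (hD : IsOCD G D) : 4 ≤ D.ncard := by
  classical
  have key : ∀ p q c : Fin 8, (∀ x y : Fin 8, G.Adj x y → (x = p ∨ x = q) → (y = p ∨ y = q) ∨
      y = c) → c ∈ D → (p ∈ D ∧ q ∈ D) ∨ (∀ x, x ∉ D → x = p ∨ x = q) := by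
    intro p q c hc hcD
    by_cases hpq : p ∈ D ∧ q ∈ D
    · exact Or.inl hpq
    · right
      intro x hx
      obtain ⟨a, haD, hap⟩ : ∃ a, a ∉ D ∧ (a = p ∨ a = q) := by
        by_cases h : p ∈ D
        · exact ⟨q, fun h' => hpq ⟨h, h'⟩, Or.inr rfl⟩
        · exact ⟨p, h, Or.inl rfl⟩
      exact closed_all hD.2 (fun z : (Dᶜ : Set (Fin 8)) => z.1 = p ∨ z.1 = q) (by
        intro z w hzw hz
        rcases hc z.1 w.1 hzw hz with h | h
        · exact h
        · exact absurd (h ▸ hcD) w.2) ⟨a, haD⟩ ⟨x, hx⟩ hap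
  have h := finite_check D.toFinset ⟨by
    intro v hv
    rw [Set.mem_toFinset] at hv
    obtain ⟨w, hw, ha⟩ := hD.1 v hv
    exact ⟨w, Set.mem_toFinset.mpr hw, ha⟩, by
    simp only [Set.mem_toFinset]
    exact key 0 4 6 (by decide), by
    simp only [Set.mem_toFinset]
    exact key 1 5 7 (by decide)⟩
  rwa [← Set.ncard_eq_toFinset_card'] at h

theorem G_connected : G.Connected := by
  have h : (G.induce (∅ : Set (Fin 8))ᶜ).Preconnected := by
    apply reach_of_closed (6 : Fin 8) (Set.notMem_empty _)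
    intro x _
    have : ∀ x : Fin 8, x = 6 ∨ G.Adj x 6 ∨ ∃ y, G.Adj x y ∧ (y = 6 ∨ G.Adj y 6) := by decide
    rcases this x with h | h | ⟨y, h, h'⟩
    · exact Or.inl h
    · exact Or.inr (Or.inl h)
    · exact Or.inr (Or.inr ⟨y, Set.notMem_empty _, h, h'⟩)
  refine ⟨fun a b => ?_⟩
  have := h ⟨a, Set.notMem_empty _⟩ ⟨b, Set.notMem_empty _⟩
  exact this.map (SimpleGraph.Embedding.induce _).toHom

/-- A connected graph of order 8 with `ocd (M(G)) ≤ 4 ≤ ocd G`. -/
theorem result : ∃ G : SimpleGraph (Fin 8), G.Connected ∧ ocd (middle G) ≤ ocd G := by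
  refine ⟨G, G_connected, ?_⟩
  have h1 : ocd (middle G) ≤ 4 := by
    refine le_trans ?_ D0_card
    apply Nat.sInf_le
    exact ⟨D0, mid_isOCD, rfl⟩
  have h2 : 4 ≤ ocd G := by
    apply le_csInf
    · refine ⟨(Set.univ : Set (Fin 8)).ncard, Set.univ, ⟨?_, ?_⟩, rfl⟩
      · intro v hv
        exact absurd (Set.mem_univ v) hv
      · rintro ⟨x, hx⟩
        exact absurd (Set.mem_univ x) hx
    · rintro k ⟨D, hD, rfl⟩
      exact four_le D hD
  exact h1.trans h2

end Pool.Agent.Results.MP_43f51c_co.MiddleEquality
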